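import Pool.Agent.Work.MP_dfab40_lc.R.Defs

/-!
# Block A, base: order facts, substitution for `D0`, `Σ_1` relations on explicit contexts

`PolyM C D g`: the coordinates `D` of `g` are polynomial functions of the coordinates `C`.
`S1C S C P`: `P` is a `Σ_1` relation on the context with the coordinates `C`.
-/

namespace Pool.Agent.Work.MP_dfab40_lc.R

section order
variable {M : Type} [PAm M]

theorem PAm.succ_le {x y : M} : x + 1 ≤ y ↔ x < y := by
  constructor
  · intro h
    exact lt_of_lt_of_le (lt_add_of_pos_right x zero_lt_one) h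
  · intro h
    obtain ⟨c, hc⟩ := exists_add_of_le h.le
    subst hc
    have : 0 < c := by
      rcases eq_or_lt_of_le (zero_le : (0 : M) ≤ c) with h0 | h0
      · rw [← h0, add_zero] at h; exact absurd h (lt_irrefl _)
      · exact h0
    exact add_le_add_right (PAm.one_le_of_pos c this) x

theorem PAm.lt_succ {x y : M} : x < y + 1 ↔ x ≤ y := by
  rw [← not_le, PAm.succ_le, not_lt]

theorem PAm.exists_lt {x y : M} (h : x < y) : ∃ c, x + c + 1 = y := by
  obtain ⟨c, hc⟩ := exists_add_of_le (PAm.succ_le.2 h)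
  exact ⟨c, by rw [hc]; ring⟩

theorem PAm.lt_of {x y : M} (c : M) (h : x + c + 1 = y) : x < y := by
  rw [← PAm.succ_le, ← h, add_assoc, add_comm c 1, ← add_assoc]
  exact le_add_of_nonneg_right zero_le

theorem PAm.exists_le {x y : M} (h : x ≤ y) : ∃ c, x + c = y := by
  obtain ⟨c, hc⟩ := exists_add_of_le h
  exact ⟨c, hc.symm⟩

theorem PAm.le_of {x y : M} (c : M) (h : x + c = y) : x ≤ y := by
  rw [← h]
  exact le_add_of_nonneg_right zero_le

theorem PAm.not_lt_zero (x : M) : ¬ x < 0 := not_lt.2 zero_le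

theorem PAm.pos_of_ne {x : M} (h : x ≠ 0) : 0 < x := lt_of_le_of_ne zero_le (Ne.symm h)

end order

section subst
variable {M : Type} [PAm M] {A B D : Type} {CA : Set (A → M)} {CB : Set (B → M)}
  {CD : Set (D → M)} {S : Set (Set M)}

/-- Maps between contexts whose coordinates are polynomial functions. -/
def PolyM (CA : Set (A → M)) (CB : Set (B → M)) (g : A → B) : Prop :=
  ∀ c ∈ CB, PolyF CA (fun a => c (g a))

theorem PolyF.subst {g : A → B} (hg : PolyM CA CB g) {f : B → M} (hf : PolyF CB f) :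
    PolyF CA (fun a => f (g a)) := by
  induction hf with
  | coord h => exact hg _ h
  | const m => exact PolyF.const m
  | add _ _ h1 h2 => exact PolyF.add h1 h2
  | mul _ _ h1 h2 => exact PolyF.mul h1 h2

theorem PolyM.fst : PolyM (extC CA) CA (fun p : A × M => p.1) :=
  fun c hc => PolyF.coord (Or.inl ⟨c, hc, rfl⟩)

theorem PolyF.fst {f : A → M} (hf : PolyF CA f) : PolyF (extC CA) (fun p : A × M => f p.1) :=
  PolyF.subst PolyM.fst hf

theorem PolyF.snd : PolyF (extC CA) (fun p : A × M => p.2) := PolyF.coord (Or.inr rfl)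

theorem PolyF.id : PolyF {fun x : M => x} (fun x : M => x) := PolyF.coord (Set.mem_singleton _)

theorem PolyM.id : PolyM CA CA (fun a => a) := fun _ hc => PolyF.coord hc

theorem PolyM.const (b : B) : PolyM CA CB (fun _ => b) := fun c _ => PolyF.const (c b)

theorem PolyM.comp {f : B → D} {g : A → B} (hf : PolyM CB CD f) (hg : PolyM CA CB g) :
    PolyM CA CD (fun a => f (g a)) := fun c hc => PolyF.subst hg (hf c hc)

theorem PolyM.ext {g : A → B} {f : A → M} (hg : PolyM CA CB g) (hf : PolyF CA f) :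
    PolyM CA (extC CB) (fun a => (g a, f a)) := by
  rintro c (⟨d, hd, rfl⟩ | rfl)
  · exact hg d hd
  · exact hf

theorem PolyM.lift {g : A → B} (hg : PolyM CA CB g) :
    PolyM (extC CA) (extC CB) (fun p : A × M => (g p.1, p.2)) :=
  PolyM.ext (g := fun p : A × M => g p.1) (PolyM.comp hg PolyM.fst) PolyF.snd

theorem PolyM.one {f : A → M} (hf : PolyF CA f) : PolyM CA {fun x : M => x} f := by
  intro c hc
  have : c = fun x => x := hc
  subst this
  exact hf

theorem D0.subst {g : A → B} (hg : PolyM CA CB g) {P : B → Prop} (hP : D0 S B CB P) :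
    D0 S A CA (fun a => P (g a)) := by
  induction hP generalizing A with
  | lt hf hg' => exact D0.lt (PolyF.subst hg hf) (PolyF.subst hg hg')
  | mem hX hf => exact D0.mem hX (PolyF.subst hg hf)
  | not _ ih => exact D0.not (ih hg)
  | and _ _ ih1 ih2 => exact D0.and (ih1 hg) (ih2 hg)
  | bex hf _ ih =>
    exact D0.bex (PolyF.subst hg hf) (ih (g := fun p : A × M => (g p.1, p.2)) (PolyM.lift hg))

theorem D0.congr {P Q : A → Prop} (hP : D0 S A CA P) (h : ∀ a, Q a ↔ P a) : D0 S A CA Q := by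
  have : Q = P := funext fun a => propext (h a)
  rw [this]; exact hP

theorem D0.or {P Q : A → Prop} (hP : D0 S A CA P) (hQ : D0 S A CA Q) :
    D0 S A CA (fun a => P a ∨ Q a) :=
  (D0.not (D0.and (D0.not hP) (D0.not hQ))).congr fun a => by tauto

theorem D0.imp {P Q : A → Prop} (hP : D0 S A CA P) (hQ : D0 S A CA Q) :
    D0 S A CA (fun a => P a → Q a) :=
  (D0.or (D0.not hP) hQ).congr fun _ => by tauto

theorem D0.iff {P Q : A → Prop} (hP : D0 S A CA P) (hQ : D0 S A CA Q) :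
    D0 S A CA (fun a => (P a ↔ Q a)) :=
  (D0.and (D0.imp hP hQ) (D0.imp hQ hP)).congr fun a => by tauto

theorem D0.le {f g : A → M} (hf : PolyF CA f) (hg : PolyF CA g) :
    D0 S A CA (fun a => f a ≤ g a) :=
  (D0.not (D0.lt hg hf)).congr fun a => by rw [not_lt]

theorem D0.eq {f g : A → M} (hf : PolyF CA f) (hg : PolyF CA g) :
    D0 S A CA (fun a => f a = g a) :=
  (D0.and (D0.le hf hg) (D0.le hg hf)).congr fun _ => le_antisymm_iff

theorem D0.ball {f : A → M} {P : A × M → Prop} (hf : PolyF CA f)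
    (hP : D0 S (A × M) (extC CA) P) : D0 S A CA (fun a => ∀ y, y < f a → P (a, y)) :=
  (D0.not (D0.bex hf (D0.not hP))).congr fun _ => by push Not; rfl

theorem D0.const (p : Prop) : D0 S A CA (fun _ => p) := by
  by_cases h : p
  · exact (D0.eq (PolyF.const 0) (PolyF.const 0)).congr fun _ => by simp [h]
  · exact (D0.not (D0.eq (PolyF.const 0) (PolyF.const 0))).congr fun _ => by simp [h]

theorem D0.mono {T : Set (Set M)} (h : T ⊆ S) {P : A → Prop} (hP : D0 T A CA P) :
    D0 S A CA P := by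
  induction hP with
  | lt hf hg' => exact D0.lt hf hg'
  | mem hX hf => exact D0.mem (h hX) hf
  | not _ ih => exact D0.not ih
  | and _ _ ih1 ih2 => exact D0.and ih1 ih2
  | bex hf _ ih => exact D0.bex hf ih

end subst

/-! ### `Σ_1` relations on explicit contexts -/
section sigma
variable {M : Type} [PAm M] {A B D : Type} {CA : Set (A → M)} {CB : Set (B → M)}
  {CD : Set (D → M)} {S : Set (Set M)}

/-- `Σ_1` relations on the context with the coordinates `CA`. -/
def S1C (S : Set (Set M)) (CA : Set (A → M)) (P : A → Prop) : Prop :=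
  ∃ R : A × M → Prop, D0 S (A × M) (extC CA) R ∧ ∀ a, P a ↔ ∃ w, R (a, w)

theorem S1C.congr {P Q : A → Prop} (hP : S1C S CA P) (h : ∀ a, Q a ↔ P a) : S1C S CA Q := by
  have : Q = P := funext fun a => propext (h a)
  rw [this]; exact hP

theorem S1C.mono {T : Set (Set M)} (h : T ⊆ S) {P : A → Prop} (hP : S1C T CA P) :
    S1C S CA P := by
  obtain ⟨R, hR, h'⟩ := hP
  exact ⟨R, hR.mono h, h'⟩

theorem D0.s1 {P : A → Prop} (hP : D0 S A CA P) : S1C S CA P :=
  ⟨fun p => P p.1, hP.subst PolyM.fst, fun _ => ⟨fun h => ⟨0, h⟩, fun ⟨_, h⟩ => h⟩⟩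

theorem S1C.subst {g : A → B} (hg : PolyM CA CB g) {P : B → Prop}
    (hP : S1C S CB P) : S1C S CA (fun b => P (g b)) := by
  obtain ⟨R, hR, h⟩ := hP
  exact ⟨fun p => R (g p.1, p.2), hR.subst (PolyM.lift hg), fun b => h (g b)⟩

/-- contraction of two unbounded quantifiers over a bounded matrix -/
theorem S1C.ex0 {R : (A × M) × M → Prop} (hR : D0 S ((A × M) × M) (extC (extC CA)) R) :
    S1C S CA (fun a : A => ∃ y z, R ((a, y), z)) := by
  refine ⟨fun p : A × M => ∃ y, y < p.2 ∧ ∃ z, z < p.2 ∧ R ((p.1, y), z), ?_, ?_⟩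
  · refine D0.bex (R := fun q : (A × M) × M => ∃ z, z < q.1.2 ∧ R ((q.1.1, q.2), z))
      PolyF.snd ?_
    refine D0.bex (f := fun q : (A × M) × M => q.1.2)
      (R := fun q : ((A × M) × M) × M => R ((q.1.1.1, q.1.2), q.2)) PolyF.snd.fst ?_
    exact hR.subst (g := fun q : ((A × M) × M) × M => ((q.1.1.1, q.1.2), q.2))
      (PolyM.ext (PolyM.ext (PolyM.comp PolyM.fst (PolyM.comp PolyM.fst PolyM.fst))
        PolyF.snd.fst) PolyF.snd)
  · intro a
    constructor
    · rintro ⟨y, z, h⟩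
      exact ⟨y + z + 1, y, PAm.lt_succ.2 (le_add_of_nonneg_right zero_le), z,
        PAm.lt_succ.2 (le_add_of_nonneg_left zero_le), h⟩
    · rintro ⟨_, y, _, z, _, h⟩
      exact ⟨y, z, h⟩

theorem S1C.ex {P : A × M → Prop} (hP : S1C S (extC CA) P) :
    S1C S CA (fun a : A => ∃ y, P (a, y)) := by
  obtain ⟨R, hR, h⟩ := hP
  exact (S1C.ex0 hR).congr fun a => exists_congr fun y => h (a, y)

theorem S1C.and {P Q : A → Prop} (hP : S1C S CA P) (hQ : S1C S CA Q) :
    S1C S CA (fun a => P a ∧ Q a) := by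
  obtain ⟨R, hR, h⟩ := hP
  obtain ⟨T, hT, h'⟩ := hQ
  refine (S1C.ex0 (R := fun p => R (p.1.1, p.1.2) ∧ T (p.1.1, p.2)) (D0.and ?_ ?_)).congr ?_
  · exact hR.subst (g := fun p : (A × M) × M => (p.1.1, p.1.2)) PolyM.fst
  · exact hT.subst (g := fun p : (A × M) × M => (p.1.1, p.2))
      (PolyM.ext (PolyM.comp PolyM.fst PolyM.fst) PolyF.snd)
  · intro a
    rw [h a, h' a]
    exact ⟨fun ⟨⟨y, hy⟩, ⟨z, hz⟩⟩ => ⟨y, z, hy, hz⟩, fun ⟨y, z, hy, hz⟩ => ⟨⟨y, hy⟩, ⟨z, hz⟩⟩⟩

theorem S1C.or {P Q : A → Prop} (hP : S1C S CA P) (hQ : S1C S CA Q) :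
    S1C S CA (fun a => P a ∨ Q a) := by
  obtain ⟨R, hR, h⟩ := hP
  obtain ⟨T, hT, h'⟩ := hQ
  refine ⟨fun p => R p ∨ T p, D0.or hR hT, fun a => ?_⟩
  change P a ∨ Q a ↔ ∃ y, R (a, y) ∨ T (a, y)
  rw [h a, h' a, exists_or]

theorem S1C.bex {f : A → M} {P : A × M → Prop} (hf : PolyF CA f)
    (hP : S1C S (extC CA) P) : S1C S CA (fun a : A => ∃ y, y < f a ∧ P (a, y)) :=
  S1C.ex (P := fun p : A × M => p.2 < f p.1 ∧ P (p.1, p.2))
    (S1C.and (D0.lt PolyF.snd hf.fst).s1 hP)

/-- Induction for the one variable context. -/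
theorem ind_S1C [IS S] {P : M → Prop} (hP : S1C S {fun x : M => x} P) (h0 : P 0)
    (h : ∀ x, P x → P (x + 1)) : ∀ x, P x := IS.ind P hP h0 h

/-- Sigma1 collection, bounded matrix -/
theorem coll0 [IS S] {R : M × M → Prop} (hR : D0 S (M × M) (extC {fun x : M => x}) R) (b : M)
    (h : ∀ x < b, ∃ y, R (x, y)) : ∃ c, ∀ x < b, ∃ y < c, R (x, y) := by
  have key : ∀ b', b' ≤ b → ∃ c, ∀ x < b', ∃ y < c, R (x, y) := by
    refine ind_S1C (P := fun b' => b' ≤ b → ∃ c, ∀ x < b', ∃ y < c, R (x, y)) (S := S) ?_ ?_ ?_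
    · refine (S1C.or (P := fun b' : M => ¬ b' ≤ b)
        (Q := fun b' => ∃ c, ∀ x < b', ∃ y < c, R (x, y))
        (D0.not (D0.le PolyF.id (PolyF.const b))).s1 ?_).congr fun a => by tauto
      refine S1C.ex (P := fun p : M × M => ∀ x, x < p.1 → ∃ y, y < p.2 ∧ R (x, y)) (D0.s1 ?_)
      refine D0.ball (P := fun p : (M × M) × M => ∃ y, y < p.1.2 ∧ R (p.2, y))
        PolyF.id.fst ?_
      refine D0.bex (f := fun p : (M × M) × M => p.1.2)
        (R := fun p : ((M × M) × M) × M => R (p.1.2, p.2)) PolyF.snd.fst ?_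
      exact hR.subst (g := fun p : ((M × M) × M) × M => (p.1.2, p.2))
        (PolyM.ext (PolyM.one PolyF.snd.fst) PolyF.snd)
    · exact fun _ => ⟨0, fun x hx => absurd hx (PAm.not_lt_zero x)⟩
    · intro x ih hx
      obtain ⟨c, hc⟩ := ih (le_trans (le_add_of_nonneg_right zero_le) hx)
      obtain ⟨y, hy⟩ := h x (PAm.succ_le.1 hx)
      refine ⟨c + y + 1, fun z hz => ?_⟩
      rcases lt_or_eq_of_le (PAm.lt_succ.1 hz) with h1 | rfl
      · obtain ⟨w, hw, hw'⟩ := hc z h1
        exact ⟨w, lt_of_lt_of_le hw (by rw [add_assoc]; exact le_add_of_nonneg_right zero_le), hw'⟩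
      · exact ⟨y, PAm.lt_succ.2 (le_add_of_nonneg_left zero_le), hy⟩
  exact key b le_rfl

theorem S1C.ball [IS S] {f : A → M} {P : A × M → Prop} (hf : PolyF CA f)
    (hP : S1C S (extC CA) P) : S1C S CA (fun a : A => ∀ y, y < f a → P (a, y)) := by
  obtain ⟨R, hR, h⟩ := hP
  refine (S1C.ex (P := fun p : A × M => ∀ y, y < f p.1 → ∃ z, z < p.2 ∧ R ((p.1, y), z))
    (D0.s1 ?_)).congr ?_
  · refine D0.ball (P := fun p : (A × M) × M => ∃ z, z < p.1.2 ∧ R ((p.1.1, p.2), z)) hf.fst ?_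
    refine D0.bex (f := fun p : (A × M) × M => p.1.2)
      (R := fun p : ((A × M) × M) × M => R ((p.1.1.1, p.1.2), p.2)) PolyF.snd.fst ?_
    exact hR.subst (g := fun q : ((A × M) × M) × M => ((q.1.1.1, q.1.2), q.2))
      (PolyM.ext (PolyM.ext (PolyM.comp PolyM.fst (PolyM.comp PolyM.fst PolyM.fst))
        PolyF.snd.fst) PolyF.snd)
  · intro a
    constructor
    · intro ha
      have h1 : D0 S (M × M) (extC {fun x : M => x}) (fun p => R ((a, p.1), p.2)) := by
        refine hR.subst (g := fun p : M × M => ((a, p.1), p.2)) ?_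
        exact PolyM.ext (PolyM.ext (PolyM.const a) PolyF.id.fst) PolyF.snd
      obtain ⟨c, hc⟩ := coll0 h1 (f a) fun x hx => (h (a, x)).1 (ha x hx)
      exact ⟨c, hc⟩
    · rintro ⟨c, hc⟩ y hy
      obtain ⟨z, _, hz⟩ := hc y hy
      exact (h (a, y)).2 ⟨z, hz⟩

theorem S1C.not_bex [IS S] {f : A → M} {P : A × M → Prop} (hf : PolyF CA f)
    (hP : S1C S (extC CA) (fun p => ¬ P p)) :
    S1C S CA (fun a : A => ¬ ∃ y, y < f a ∧ P (a, y)) :=
  (S1C.ball hf hP).congr fun _ => by push Not; rfl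

end sigma

end Pool.Agent.Work.MP_dfab40_lc.R
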