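import Pool.Agent.Work.MP_dfab40_lc.R.Calc

/-!
# Block A: computable functions on explicit contexts, the bridge to `Cd` contexts
-/

namespace Pool.Agent.Work.MP_dfab40_lc.R

section un
variable {M : Type} [PAm M] {A B : Type} {CA : Set (A → M)} {CB : Set (B → M)}
  {S : Set (Set M)}

/-- The coordinates of the one variable context. -/
abbrev c1 (M : Type) : Set (M → M) := {fun x : M => x}

/-- Computable functions on an explicit context. -/
def UC (S : Set (Set M)) (CA : Set (A → M)) (f : A → M) : Prop :=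
  S1C S (extC CA) (fun p : A × M => f p.1 = p.2)

theorem UC.congr {f g : A → M} (hf : UC S CA f) (h : ∀ a, g a = f a) : UC S CA g := by
  have : g = f := funext h
  rw [this]; exact hf

theorem UC.poly {f : A → M} (hf : PolyF CA f) : UC S CA f := (D0.eq hf.fst PolyF.snd).s1

/-- Substitution of a computable function into a unary relation. -/
theorem UC.sub1 {P : M → Prop} {f : A → M} (hP : S1C S (c1 M) P) (hf : UC S CA f) :
    S1C S CA (fun a => P (f a)) := by
  refine (S1C.ex (P := fun p : A × M => f p.1 = p.2 ∧ P p.2) (S1C.and hf ?_)).congr ?_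
  · exact hP.subst (g := fun p : A × M => p.2) (PolyM.one PolyF.snd)
  · intro a
    exact ⟨fun h => ⟨_, rfl, h⟩, fun ⟨y, h1, h2⟩ => by rw [h1]; exact h2⟩

/-- Substitution of a computable function for the last variable. -/
theorem UC.subl {Q : A × M → Prop} {f : A → M} (hQ : S1C S (extC CA) Q) (hf : UC S CA f) :
    S1C S CA (fun a => Q (a, f a)) := by
  refine (S1C.ex (P := fun p : A × M => f p.1 = p.2 ∧ Q p) (S1C.and hf hQ)).congr ?_
  intro a
  exact ⟨fun h => ⟨_, rfl, h⟩, fun ⟨y, h1, h2⟩ => by rw [h1]; exact h2⟩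

theorem UC.fst {f : A → M} (hf : UC S CA f) : UC S (extC CA) (fun p : A × M => f p.1) :=
  S1C.subst (g := fun p : (A × M) × M => (p.1.1, p.2))
    (PolyM.ext (PolyM.comp PolyM.fst PolyM.fst) PolyF.snd) hf

/-- Substitution of computable functions into a binary relation. -/
theorem UC.sub2 {Q : M × M → Prop} {f g : A → M} (hQ : S1C S (extC (c1 M)) Q) (hf : UC S CA f)
    (hg : UC S CA g) : S1C S CA (fun a => Q (f a, g a)) := by
  have h1 : S1C S (extC CA) (fun p : A × M => Q (p.2, g p.1)) :=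
    UC.subl (Q := fun q : (A × M) × M => Q (q.1.2, q.2))
      (hQ.subst (PolyM.ext (PolyM.one PolyF.snd.fst) PolyF.snd)) hg.fst
  exact UC.subl h1 hf

theorem UC.comp {F : M → M} {f : A → M} (hF : UC S (c1 M) F) (hf : UC S CA f) :
    UC S CA (fun a => F (f a)) :=
  UC.sub2 (Q := fun q => F q.1 = q.2) hF hf.fst (UC.poly PolyF.snd)

/-- Binary computable functions. -/
theorem UC.op2 {G : M → M → M} {f g : A → M}
    (hG : S1C S (extC (extC (c1 M))) (fun q : (M × M) × M => G q.1.1 q.1.2 = q.2))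
    (hf : UC S CA f) (hg : UC S CA g) : UC S CA (fun a => G (f a) (g a)) := by
  -- context `(A × M) × M`: value `z = p.2`, `y = q.2`
  have h1 : S1C S (extC (extC CA)) (fun q : (A × M) × M => G q.2 (g q.1.1) = q.1.2) := by
    refine UC.subl (Q := fun q : ((A × M) × M) × M => G q.1.2 q.2 = q.1.1.2) ?_ hg.fst.fst
    exact hG.subst (g := fun q : ((A × M) × M) × M => ((q.1.2, q.2), q.1.1.2))
      (PolyM.ext (PolyM.ext (PolyM.one PolyF.snd.fst) PolyF.snd) PolyF.snd.fst.fst)
  exact UC.subl (Q := fun q : (A × M) × M => G q.2 (g q.1.1) = q.1.2) h1 hf.fst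

theorem UC.add {f g : A → M} (hf : UC S CA f) (hg : UC S CA g) : UC S CA (fun a => f a + g a) :=
  UC.op2 (D0.eq (PolyF.add PolyF.id.fst.fst PolyF.snd.fst) PolyF.snd).s1 hf hg

theorem UC.mul {f g : A → M} (hf : UC S CA f) (hg : UC S CA g) : UC S CA (fun a => f a * g a) :=
  UC.op2 (D0.eq (PolyF.mul PolyF.id.fst.fst PolyF.snd.fst) PolyF.snd).s1 hf hg

theorem UC.pr {f g : A → M} (hf : UC S CA f) (hg : UC S CA g) :
    UC S CA (fun a => pr (f a) (g a)) :=
  UC.op2 (D0_pr S PolyF.id.fst.fst PolyF.snd.fst PolyF.snd).s1 hf hg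

/-- Replacing the parameters by `Δ_1` sets: bounded relations become `Δ_1`. -/
theorem D0.trans [IS S] {T : Set (Set M)}
    (hT : ∀ X ∈ T, S1C S (c1 M) (fun x => x ∈ X) ∧ S1C S (c1 M) (fun x => ¬ x ∈ X))
    {P : A → Prop} (hP : D0 T A CA P) : S1C S CA P ∧ S1C S CA (fun a => ¬ P a) := by
  induction hP with
  | lt hf hg => exact ⟨(D0.lt hf hg).s1, (D0.not (D0.lt hf hg)).s1⟩
  | mem hX hf => exact ⟨UC.sub1 (hT _ hX).1 (UC.poly hf), UC.sub1 (hT _ hX).2 (UC.poly hf)⟩
  | not _ ih => exact ⟨ih.2, ih.1.congr fun _ => not_not⟩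
  | and _ _ ih1 ih2 => exact ⟨ih1.1.and ih2.1, (ih1.2.or ih2.2).congr fun _ => not_and_or⟩
  | bex hf _ ih => exact ⟨S1C.bex hf ih.1, S1C.not_bex hf ih.2⟩

end un

section br
variable {M : Type} [PAm M] [ISig M] {A B D : Type} {S : Set (Set M)}

theorem fs_pr0 (x y : M) : fs (pr x y) = x := by
  change (pe.symm (pe (x, y))).1 = x
  rw [Equiv.symm_apply_apply]

theorem sn_pr0 (x y : M) : sn (pr x y) = y := by
  change (pe.symm (pe (x, y))).2 = y
  rw [Equiv.symm_apply_apply]

theorem pr_fs_sn0 (z : M) : pr (fs z) (sn z) = z := by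
  change pe (pe.symm z) = z
  rw [Equiv.apply_symm_apply]

theorem UC.fs : UC S (c1 M) fs := by
  refine (S1C.ex (P := fun q : (M × M) × M => R.pr q.1.2 q.2 = q.1.1)
    (D0_pr S PolyF.snd.fst PolyF.snd PolyF.id.fst.fst).s1).congr ?_
  intro p
  constructor
  · intro h
    refine ⟨sn p.1, ?_⟩
    change R.pr p.2 (sn p.1) = p.1
    rw [← h, pr_fs_sn0]
  · rintro ⟨y, h⟩
    change R.pr p.2 y = p.1 at h
    rw [← h, fs_pr0]

theorem UC.sn : UC S (c1 M) sn := by
  refine (S1C.ex (P := fun q : (M × M) × M => R.pr q.2 q.1.2 = q.1.1)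
    (D0_pr S PolyF.snd PolyF.snd.fst PolyF.id.fst.fst).s1).congr ?_
  intro p
  constructor
  · intro h
    refine ⟨R.fs p.1, ?_⟩
    change R.pr (R.fs p.1) p.2 = p.1
    rw [← h, pr_fs_sn0]
  · rintro ⟨y, h⟩
    change R.pr y p.2 = p.1 at h
    rw [← h, sn_pr0]

/-- Binary relations, coded and not coded. -/
theorem S1C_pair {Q : M × M → Prop} :
    S1C S (c1 M) (fun z => Q (fs z, sn z)) ↔ S1C S (extC (c1 M)) Q := by
  constructor
  · intro h
    refine (UC.sub1 (f := fun q : M × M => pr q.1 q.2) h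
      (UC.pr (UC.poly PolyF.id.fst) (UC.poly PolyF.snd))).congr fun q => ?_
    rw [fs_pr0, sn_pr0]
  · intro h
    exact UC.sub2 h UC.fs UC.sn

variable [Cd M A] [Cd M B] [Cd M D]

omit [ISig M] in
theorem S1_iff {P : A → Prop} : S1 S P ↔ S1C S (c1 M) (fun x => P (Cd.e.symm x)) := Iff.rfl

theorem S1_pair {P : A × B → Prop} : S1 S P ↔
    S1C S (extC (c1 M)) (fun q : M × M => P (Cd.e.symm q.1, Cd.e.symm q.2)) :=
  S1C_pair (Q := fun q : M × M => P (Cd.e.symm q.1, Cd.e.symm q.2))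

theorem Df_iff {f : A → B} : Df S f ↔ UC S (c1 M) (fun x => Cd.e (f (Cd.e.symm x))) := by
  refine S1_pair.trans ?_
  unfold UC
  have h : (fun q : M × M => f (Cd.e.symm q.1) = (Cd.e.symm q.2 : B)) =
      fun p : M × M => Cd.e (f (Cd.e.symm p.1)) = p.2 := by
    funext q
    exact propext (Equiv.eq_symm_apply _)
  rw [← h]

theorem Cd_e_pair (a : A) (b : B) : (Cd.e (a, b) : M) = pr (Cd.e a) (Cd.e b) := rfl

end br

end Pool.Agent.Work.MP_dfab40_lc.R
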